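import Pool.Agent.B3509.Graph

/-! A graph of girth five with no `K₆` minor, one vertex away from having no `K₅` minor, that is
not 3-colourable. -/

namespace Pool.Agent.Results.MP_b3509a_co.Counterexample

theorem result :
    ∃ (G : SimpleGraph (Fin 166)) (v : Fin 166),
      (¬ ∃ B : Fin 6 → Set (Fin 166),
        (∀ i, (G.induce (B i)).Connected) ∧
        (∀ i j, i ≠ j → Disjoint (B i) (B j)) ∧
        (∀ i j, i ≠ j → ∃ x ∈ B i, ∃ y ∈ B j, G.Adj x y)) ∧
      (¬ ∃ B : Fin 5 → Set (Fin 166),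
        (∀ i, v ∉ B i) ∧
        (∀ i, (G.induce (B i)).Connected) ∧
        (∀ i j, i ≠ j → Disjoint (B i) (B j)) ∧
        (∀ i j, i ≠ j → ∃ x ∈ B i, ∃ y ∈ B j, G.Adj x y)) ∧
      5 ≤ G.egirth ∧ ¬ G.Colorable 3 :=
  ⟨B3509.G, B3509.v, B3509.no_K6 _ _ B3509.no_K5_G, B3509.no_K5_G, B3509.girth,
    B3509.not_colorable⟩

end Pool.Agent.Results.MP_b3509a_co.Counterexample
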